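import Mathlib
import Pool.Agent.Helper760.Profile

set_option autoImplicit false

namespace Pool.Agent.Results.MP_7eeb8f_lc.ProfilesDependOnlyOnC

/-- `U` is an optimal plain decompressor: it is partial recursive and every partial recursive
decompressor `V` is simulated by `U` with a constant overhead in the length of programs. -/
def OptimalDecompressor (U : List Bool →. List Bool) : Prop :=
  Partrec U ∧ ∀ V : List Bool →. List Bool, Partrec V →
    ∃ c : ℕ, ∀ p x : List Bool, x ∈ V p → ∃ q : List Bool, x ∈ U q ∧ q.length ≤ p.length + c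

/-- Plain Kolmogorov complexity of a string with respect to the decompressor `U`. -/
noncomputable def plainC (U : List Bool →. List Bool) (x : List Bool) : ℕ :=
  sInf {m : ℕ | ∃ p : List Bool, x ∈ U p ∧ p.length = m}

/-- The subtuple of the `z i` with `i ∈ S`, in increasing order of the indices. -/
def subtuple {k : ℕ} (z : Fin (k + 1) → List Bool) (S : Finset (Fin (k + 1))) :
    List (List Bool) :=
  ((List.finRange (k + 1)).filter (fun i => decide (i ∈ S))).map z

section aux

open Pool.Agent.Helper760.Kolm Encodable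

theorem exists_prog {U : List Bool →. List Bool} (hU : OptimalDecompressor U) (x : List Bool) :
    ∃ p : List Bool, x ∈ U p ∧ p.length = plainC U x := by
  have h : {m : ℕ | ∃ p : List Bool, x ∈ U p ∧ p.length = m}.Nonempty := by
    obtain ⟨c, hc⟩ := hU.2 (fun p => Part.some p) Partrec.some
    obtain ⟨q, hq, _⟩ := hc x x (Part.mem_some x)
    exact ⟨q.length, q, hq, rfl⟩
  exact Nat.sInf_mem h

theorem plainC_le {U : List Bool →. List Bool} (x p : List Bool) (h : x ∈ U p) :
    plainC U x ≤ p.length := Nat.sInf_le ⟨p, h, rfl⟩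

/-- From the reference complexity to `plainC`. -/
theorem plainC_le_K {α : Type} [Primcodable α] {U : List Bool →. List Bool}
    (hU : OptimalDecompressor U) (enc : α → List Bool) (henc : Computable enc) :
    ∃ c : ℕ, ∀ w : α, plainC U (enc w) ≤ K w () + c := by
  have hV : Partrec (fun p : List Bool =>
      (M p 0).bind fun n => (Part.ofOption (decode (α := α) n)).map enc) := by
    refine Partrec.bind ?_ ?_
    · exact partrec_M.comp Computable.id (Computable.const 0)
    · refine Partrec.map ?_ (henc.comp Computable.snd).to₂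
      exact (Computable.decode.comp Computable.snd).ofOption
  obtain ⟨c, hc⟩ := hU.2 _ hV
  refine ⟨c, fun w => ?_⟩
  obtain ⟨p, hp, hl⟩ := K_spec w ()
  obtain ⟨q, hq, hql⟩ := hc p (enc w) (by
    simp only [Part.mem_bind_iff]
    refine ⟨encode w, by simpa using hp, ?_⟩
    simp)
  have := plainC_le _ _ hq
  omega

/-- From `plainC` to the reference complexity. -/
theorem K_le_plainC {α : Type} [Primcodable α] {U : List Bool →. List Bool}
    (hU : OptimalDecompressor U) (enc : α → List Bool) (henc : Computable enc)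
    (hinj : Function.Injective enc) :
    ∃ c : ℕ, ∀ w : α, K w () ≤ plainC U (enc w) + c := by
  let φ : Unit × List Bool × Unit →. α := fun x =>
    (U x.2.1).bind fun s => Nat.rfindOpt (fun t =>
      (decode (α := α) t).bind fun w => if enc w = s then some w else none)
  have hφ : Partrec φ := by
    refine Partrec.bind ?_ ?_
    · exact hU.1.comp (Computable.fst.comp Computable.snd)
    · refine Partrec.rfindOpt ?_
      refine Computable.option_bind (Computable.decode.comp Computable.snd) ?_
      have hcond : Computable (fun y : ((((Unit × List Bool × Unit) × List Bool) × ℕ) × α) =>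
          decide (enc y.2 = y.1.1.2)) := by
        have h1 : Primrec (fun z : List Bool × List Bool => decide (z.1 = z.2)) :=
          (Primrec.eq (α := List Bool)).decide
        exact h1.to_comp.comp (Computable.pair (henc.comp Computable.snd)
          (Computable.snd.comp (Computable.fst.comp Computable.fst)))
      refine (Computable.cond hcond (Computable.option_some.comp Computable.snd)
        (Computable.const none)).to₂.of_eq ?_
      rintro ⟨y, w⟩
      by_cases h : enc w = y.1.2 <;> simp [h]
  obtain ⟨c, hc⟩ := K_param φ hφ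
  refine ⟨c, fun w => ?_⟩
  obtain ⟨p, hp, hl⟩ := exists_prog hU (enc w)
  have h := hc () p () w (by
    simp only [φ, Part.mem_bind_iff]
    refine ⟨enc w, hp, ?_⟩
    have hex : ∃ n a, a ∈ ((decode (α := α) n).bind fun w' =>
        if enc w' = enc w then some w' else none : Option α) :=
      ⟨encode w, w, by simp⟩
    obtain ⟨a, ha⟩ := Part.dom_iff_mem.1 (Nat.rfindOpt_dom.2 hex)
    obtain ⟨n, hn⟩ := Nat.rfindOpt_spec ha
    have hn' : ((decode (α := α) n).bind fun w' =>
        if enc w' = enc w then some w' else none) = some a := hn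
    simp only [Option.bind_eq_some_iff] at hn'
    obtain ⟨w', _, hw'⟩ := hn'
    split_ifs at hw' with heq
    cases hw'
    obtain rfl : a = w := hinj heq
    exact ha)
  simp only [size_encode_unit] at h
  omega

/-- Linear bound for the complexity of a list of strings. -/
theorem K_list_le : ∃ c : ℕ, ∀ Z : List (List Bool),
    K Z () ≤ 3 * (Z.map List.length).sum + c * (Z.length + 1) := by
  obtain ⟨c1, h1⟩ := K_param (γ := Unit) (α := List Bool) (β := Unit)
    (fun x => Part.some x.2.1) (Computable.fst.comp Computable.snd).partrec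
  have hs : ∀ s : List Bool, K s () ≤ s.length + c1 := by
    intro s
    have := h1 () s () s (Part.mem_some s)
    simp only [size_encode_unit] at this
    omega
  obtain ⟨c2, h2⟩ := K_chain0 (α := List Bool) (β := List (List Bool))
  obtain ⟨c3, h3⟩ := K_comp (fun (Z : List (List Bool)) (s : List Bool) => s :: Z)
    (Primrec.list_cons.comp Primrec.snd Primrec.fst).to_comp.to₂ (fun _ : List Bool => ())
    (Computable.const ())
  refine ⟨K ([] : List (List Bool)) () + 3 * c1 + c2 + c3, ?_⟩
  intro Z
  induction Z with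
  | nil => simp; omega
  | cons s Z ih =>
    have e1 := h2 s (s :: Z)
    have e2 := h3 Z s
    have e3 := hs s
    have e4 := size_le_self (K s ())
    simp only [List.map_cons, List.sum_cons, List.length_cons]
    have e5 : (K ([] : List (List Bool)) () + 3 * c1 + c2 + c3) * (Z.length + 1 + 1) =
        (K ([] : List (List Bool)) () + 3 * c1 + c2 + c3) * (Z.length + 1) +
        (K ([] : List (List Bool)) () + 3 * c1 + c2 + c3) := by ring
    rw [e5]
    omega

theorem size_le_log (m : ℕ) (hm : 2 ≤ m) : (Nat.size m : ℝ) ≤ 3 * Real.log m := by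
  have h1 : 2 ^ (Nat.size m - 1) ≤ m := by
    have h2 : Nat.size m - 1 < Nat.size m := by
      have : 0 < Nat.size m := Nat.size_pos.2 (by omega)
      omega
    exact Nat.lt_size.1 h2
  have h3 : ((2 : ℝ) ^ (Nat.size m - 1)) ≤ m := by exact_mod_cast h1
  have h4 : ((Nat.size m - 1 : ℕ) : ℝ) * Real.log 2 ≤ Real.log m := by
    rw [← Real.log_pow]
    exact Real.log_le_log (by positivity) h3
  have h5 : ((Nat.size m - 1 : ℕ) : ℝ) = (Nat.size m : ℝ) - 1 := by
    have : 1 ≤ Nat.size m := Nat.size_pos.2 (by omega)
    push_cast [Nat.cast_sub this]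
    ring
  rw [h5] at h4
  have h6 : Real.log 2 ≤ Real.log m :=
    Real.log_le_log (by norm_num) (by exact_mod_cast hm)
  have h7 := Real.log_two_gt_d9
  nlinarith

/-- Sanity check: optimal decompressors exist. -/
theorem exists_optimal : ∃ U : List Bool →. List Bool, OptimalDecompressor U := by
  refine ⟨fun p => (M p 0).bind fun n => Part.ofOption (decode (α := List Bool) n), ?_, ?_⟩
  · exact Partrec.bind (partrec_M.comp Computable.id (Computable.const 0))
      ((Computable.decode.comp Computable.snd).ofOption)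
  · intro V hV
    obtain ⟨c, hc⟩ := M_opt (fun p _ => (V p).map encode)
      (Partrec.map (hV.comp Computable.fst) (Computable.encode.comp Computable.snd).to₂)
    refine ⟨c + 1, fun p x hx => ⟨List.replicate c true ++ false :: p, ?_, ?_⟩⟩
    · simp only [Part.mem_bind_iff]
      exact ⟨encode x, hc p 0 (encode x) (Part.mem_map encode hx), by simp⟩
    · simp; omega

/-- Sanity check: computable injective encodings of tuples exist. -/
theorem exists_encoding : ∃ enc : List (List Bool) → List Bool,
    Computable enc ∧ Function.Injective enc := by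
  refine ⟨fun w => (List.range (encode w)).map (fun _ => true), ?_, ?_⟩
  · exact (Primrec.list_map (Primrec.list_range.comp Primrec.encode)
      (Primrec.const true).to₂).to_comp
  · intro a b h
    have := congrArg List.length h
    simp only [List.length_map, List.length_range] at this
    exact encode_injective this

end aux

open Pool.Agent.Helper760.Kolm Encodable in
/-- Up to logarithmic precision, the set of complexity profiles of tuples `(x, y_1, ..., y_k)`
containing a given string `x` depends only on the complexity of `x`. -/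
theorem result :
    ∀ (k : ℕ) (U : List Bool →. List Bool), OptimalDecompressor U →
    ∀ enc : List (List Bool) → List Bool, Computable enc → Function.Injective enc →
    ∃ c : ℝ, ∀ x x' : List Bool, plainC U x = plainC U x' →
    ∀ y : Fin k → List Bool, ∃ y' : Fin k → List Bool,
    ∀ S : Finset (Fin (k + 1)), S.Nonempty →
      |(plainC U (enc (subtuple (Fin.cons x y) S)) : ℝ) -
        (plainC U (enc (subtuple (Fin.cons x' y') S)) : ℝ)| ≤
      c * Real.log (2 + ((x.length : ℝ) + (x'.length : ℝ) + ∑ i, ((y i).length : ℝ))) := by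
  classical
  intro k U hU enc henc hinj
  -- index lists
  set idxL : Finset (Fin (k + 1)) → List ℕ := fun S =>
    ((List.finRange (k + 1)).filter (fun i => decide (i ∈ S))).map (fun i : Fin (k + 1) => i.val) with hidxL
  set Idx : List (List ℕ) := (Finset.univ : Finset (Finset (Fin (k + 1)))).toList.map idxL with hIdx
  obtain ⟨c0, hc0⟩ := coreA Idx (k + 1) (by omega)
  obtain ⟨c1, hc1⟩ := plainC_le_K hU enc henc
  obtain ⟨c2, hc2⟩ := K_le_plainC hU enc henc hinj
  obtain ⟨c3, hc3⟩ := plainC_le_K hU (fun s : List Bool => s) Computable.id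
  obtain ⟨c4, hc4⟩ := K_le_plainC hU (fun s : List Bool => s) Computable.id (fun a b h => h)
  obtain ⟨c5, hc5⟩ := K_list_le
  -- bounds for subtuples
  obtain ⟨c6, hc6⟩ := exists_unif Idx (fun idx c => ∀ W : List (List Bool),
    K (sel idx W) () ≤ K W () + c) (fun i c c' hc h W => (h W).trans (by omega))
    (fun idx _ => by
      obtain ⟨c, hc⟩ := K_comp (fun (W : List (List Bool)) (_ : Unit) => sel idx W)
        (primrec_sel.comp (Primrec.const idx) Primrec.fst).to_comp.to₂ (fun _ : Unit => ())
        (Computable.const ())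
      exact ⟨c, fun W => hc W ()⟩)
  obtain ⟨c7, hc7⟩ := K_comp (fun (W : List (List Bool)) (_ : List (List Bool)) => W)
    (Computable.fst).to₂ (fun _ : List (List Bool) => ()) (Computable.const ())
  obtain ⟨c8, hc8⟩ := K_comp (fun (W : List (List Bool)) (_ : Unit) => hd W)
    (primrec_hd.comp Primrec.fst).to_comp.to₂ (fun _ : Unit => ()) (Computable.const ())
  obtain ⟨c9, hc9⟩ := K_comp (fun (W : List (List Bool)) (_ : List Bool) => W)
    (Computable.fst).to₂ (fun _ : List Bool => ()) (Computable.const ())
  set d := c3 + c4 with hd_def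
  set A := 3 + c5 * (k + 2) + c6 + c7 + c8 + c9 with hA
  -- the final constant
  refine ⟨((c0 : ℝ) * ((Nat.size A : ℝ) + d + 1 + 1) + (c1 + c2)) * 3, ?_⟩
  intro x x' hxx y
  set N := x.length + x'.length + ∑ i, (y i).length with hN
  set Z : List (List Bool) := List.ofFn (Fin.cons x y : Fin (k + 1) → List Bool) with hZ
  have hZlen : Z.length = k + 1 := by rw [hZ, List.length_ofFn]
  have hZget : ∀ i : Fin (k + 1), Z.getD (i : ℕ) [] = (Fin.cons x y : Fin (k + 1) → List Bool) i := by
    intro i
    rw [hZ, List.getD_eq_getElem?_getD, List.getElem?_ofFn]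
    simp [Fin.is_le i]
  have hhdZ : hd Z = x := by
    have := hZget 0
    simpa [hd] using this
  have hsumZ : (Z.map List.length).sum ≤ N := by
    rw [hZ, List.map_ofFn, List.sum_ofFn, Fin.sum_univ_succ]
    simp only [Function.comp, Fin.cons_zero, Fin.cons_succ]
    omega
  set n := A * (2 + N) with hn
  have hKZ : K Z () + (c6 + c7 + c8 + c9) ≤ n := by
    have e1 := hc5 Z
    rw [hZlen] at e1
    have e2 : n = 3 * (2 + N) + (c5 * (k + 2)) * (2 + N) + (c6 + c7 + c8 + c9) * (2 + N) := by
      rw [hn, hA]; ring
    have e3 : c5 * (k + 1 + 1) ≤ (c5 * (k + 2)) * (2 + N) :=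
      Nat.le_mul_of_pos_right _ (by omega)
    have e4 : (c6 + c7 + c8 + c9) ≤ (c6 + c7 + c8 + c9) * (2 + N) :=
      Nat.le_mul_of_pos_right _ (by omega)
    omega
  have hx1 := hc3 x
  have hx2 := hc4 x
  have hx3 := hc3 x'
  have hx4 := hc4 x'
  obtain ⟨Z', hZ'len, hZ'hd, hZ'⟩ := hc0 Z x' n d hZlen
    (by
      intro idx hidx
      have e1 := hc6 idx hidx Z
      have e2 : K Z (sel idx Z) ≤ K Z () + c7 := hc7 Z (sel idx Z)
      omega)
    (by omega)
    (by
      have e1 : K (hd Z) () ≤ K Z () + c8 := hc8 Z ()
      omega)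
    (by
      have e1 : K Z (hd Z) ≤ K Z () + c9 := hc9 Z (hd Z)
      omega)
    (by rw [hhdZ]; omega)
    (by rw [hhdZ]; omega)
  refine ⟨fun i => Z'.getD ((i : ℕ) + 1) [], ?_⟩
  intro S _
  have hZ'get : ∀ i : Fin (k + 1), Z'.getD (i : ℕ) [] =
      (Fin.cons x' (fun i : Fin k => Z'.getD ((i : ℕ) + 1) []) : Fin (k + 1) → List Bool) i := by
    intro i
    refine Fin.cases ?_ (fun j => ?_) i
    · rw [Fin.cons_zero]; exact hZ'hd
    · rw [Fin.cons_succ]; rfl
  have hs1 : subtuple (Fin.cons x y) S = sel (idxL S) Z := by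
    unfold subtuple sel
    rw [hidxL, List.map_map]
    apply List.map_congr_left
    intro i _
    exact (hZget i).symm
  have hs2 : subtuple (Fin.cons x' (fun i : Fin k => Z'.getD ((i : ℕ) + 1) [])) S =
      sel (idxL S) Z' := by
    unfold subtuple sel
    rw [hidxL, List.map_map]
    apply List.map_congr_left
    intro i _
    exact (hZ'get i).symm
  rw [hs1, hs2]
  have hmem : idxL S ∈ Idx := by
    rw [hIdx]
    exact List.mem_map_of_mem (Finset.mem_toList.2 (Finset.mem_univ _))
  obtain ⟨hb1, hb2⟩ := hZ' _ hmem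
  have ha1 := hc1 (sel (idxL S) Z)
  have ha2 := hc1 (sel (idxL S) Z')
  have ha3 := hc2 (sel (idxL S) Z)
  have ha4 := hc2 (sel (idxL S) Z')
  set P := plainC U (enc (sel (idxL S) Z))
  set Q := plainC U (enc (sel (idxL S) Z'))
  have hsz : Nat.size n ≤ Nat.size A + Nat.size (2 + N) := size_mul_le A (2 + N)
  have hE1 : P ≤ Q + (c0 * (Nat.size A + Nat.size (2 + N) + d + 1) + (c1 + c2)) := by
    have : c0 * (Nat.size n + d + 1) ≤ c0 * (Nat.size A + Nat.size (2 + N) + d + 1) :=
      Nat.mul_le_mul_left _ (by omega)
    omega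
  have hE2 : Q ≤ P + (c0 * (Nat.size A + Nat.size (2 + N) + d + 1) + (c1 + c2)) := by
    have : c0 * (Nat.size n + d + 1) ≤ c0 * (Nat.size A + Nat.size (2 + N) + d + 1) :=
      Nat.mul_le_mul_left _ (by omega)
    omega
  have hsize1 : 1 ≤ Nat.size (2 + N) := Nat.size_pos.2 (by omega)
  have hE3 : c0 * (Nat.size A + Nat.size (2 + N) + d + 1) + (c1 + c2) ≤
      (c0 * (Nat.size A + d + 1 + 1) + (c1 + c2)) * Nat.size (2 + N) := by
    have e1 : (c0 * (Nat.size A + d + 1 + 1) + (c1 + c2)) * Nat.size (2 + N) =
      c0 * ((Nat.size A + d + 1) * Nat.size (2 + N) + Nat.size (2 + N))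
        + (c1 + c2) * Nat.size (2 + N) := by ring
    rw [e1]
    have e2 : Nat.size A + d + 1 ≤ (Nat.size A + d + 1) * Nat.size (2 + N) :=
      Nat.le_mul_of_pos_right _ hsize1
    have e3 : c1 + c2 ≤ (c1 + c2) * Nat.size (2 + N) := Nat.le_mul_of_pos_right _ hsize1
    have e4 : c0 * (Nat.size A + Nat.size (2 + N) + d + 1) ≤
      c0 * ((Nat.size A + d + 1) * Nat.size (2 + N) + Nat.size (2 + N)) :=
      Nat.mul_le_mul_left _ (by omega)
    omega
  have hlog := size_le_log (2 + N) (by omega)
  have hcast : ((2 + N : ℕ) : ℝ) =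
      2 + ((x.length : ℝ) + (x'.length : ℝ) + ∑ i, ((y i).length : ℝ)) := by
    rw [hN]; push_cast; ring
  rw [hcast] at hlog
  have hE1' : (P : ℝ) ≤ Q + ((c0 : ℝ) * (Nat.size A + d + 1 + 1) + (c1 + c2)) * Nat.size (2 + N) := by
    exact_mod_cast (show P ≤ Q + (c0 * (Nat.size A + d + 1 + 1) + (c1 + c2)) * Nat.size (2 + N) by
      omega)
  have hE2' : (Q : ℝ) ≤ P + ((c0 : ℝ) * (Nat.size A + d + 1 + 1) + (c1 + c2)) * Nat.size (2 + N) := by
    exact_mod_cast (show Q ≤ P + (c0 * (Nat.size A + d + 1 + 1) + (c1 + c2)) * Nat.size (2 + N) by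
      omega)
  have hpos : (0 : ℝ) ≤ (c0 : ℝ) * (Nat.size A + d + 1 + 1) + (c1 + c2) := by positivity
  have hfin := mul_le_mul_of_nonneg_left hlog hpos
  rw [abs_le]
  constructor
  · linarith
  · linarith

end Pool.Agent.Results.MP_7eeb8f_lc.ProfilesDependOnlyOnC
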